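import Pool.Agent.Lib.MP_c7af3c_ag.METX.Base

/-! The transfer theorem, with exclusion (after METC.H75.Thm1). -/

set_option autoImplicit false

namespace Pool.Agent.MetX

open MvPolynomial WithZero Pool.Agent.Gen Pool.Agent.MetC

theorem thm1 (hDeriv : DerivStatement) (hDir : DirStatement) (hHeight : HeightS)
    (hCoef : CoefStatement) (hUltra : UltraS) (hChain : ChainS) :
    Thm1S := by
  intro R k0 K _ _ _ _ _ _ hFG ι J J' _ _ E E' hE' φ a hindep hHB
  by_contra hinf
  rw [← Set.Infinite] at hinf
  have := Fintype.ofFinite J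
  obtain ⟨N, T, e, he, hTe⟩ := hDeriv k0 K hFG ι a hindep
  -- the derivations
  let D : DD ι K :=
    { a := a
      del := fun s => (T.del (e s)).restrictScalars ℤ
      one := by
        intro s
        change T.del (e s) (a s) = 1
        rw [← hTe, T.dual, if_pos rfl]
      zero := by
        intro s t h
        change T.del (e s) (a t) = 0
        rw [← hTe, T.dual, if_neg fun h' => h (he h')]
      comm := fun s t f => dat_comm T (e s) (e t) f }
  have hdel : ∀ s, ∃ j, ∀ f, D.del s f = T.del j f := fun s => ⟨e s, fun f => rfl⟩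
  have hdir : ∀ i, FF (dirκ (k0 := k0) T.t i) K (T.t i) := fun i => (hDir k0 K N T i).1
  have hH := hHeight R k0 K N T hdir ι J J' E E' φ D hdel hHB
  choose C hC using hH
  obtain ⟨r, θ, B, hB⟩ := hCoef k0 K N T hdir C
  let ψ := hinf.natEmbedding
  let z : ℕ → J → K := fun ν => (ψ ν : J → K)
  have hzinj : Function.Injective z := fun a b hab => ψ.injective (Subtype.ext hab)
  have hz0 : ∀ ν, Sol E ((algebraMap k0 K).comp φ) D.a (z ν) := fun ν => (ψ ν).2.1
  have hz1 : ∀ ν, Excl E' ((algebraMap k0 K).comp φ) D.a (z ν) := fun ν => (ψ ν).2.2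
  obtain ⟨Ω, _, _, A, y, hA, hy0, hy1, hyKE, hnot⟩ := hUltra R k0 K ι J J' E E' hE' φ D
    (fun s a => (T.del (e s)).map_algebraMap a)
    N r B T.t θ z hzinj hz0 hz1
    (fun ν j => hB 1 ![1, z ν j] 0 rfl (fun i => hC i (z ν) (hz0 ν) (hz1 ν) j) 1)
  exact hnot (hChain R k0 Ω ι J J' E E' hHB φ A hA y hy0 hy1 hyKE)

theorem thm2 (hT : Thm1S) : Thm2S := by
  intro R k0 k _ _ _ _ _ _ ι J J' _ _ E E' hE' φ a hind hHB S hS haS
  let K : IntermediateField k0 k := IntermediateField.adjoin k0 S
  have hSK : S ⊆ K := IntermediateField.subset_adjoin k0 S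
  have hKfg : (⊤ : IntermediateField k0 K).FG := by
    rw [IntermediateField.fg_top_iff, IntermediateField.essFiniteType_iff]
    exact IntermediateField.fg_adjoin_of_finite hS
  let b : ι → K := fun s => ⟨a s, hSK (haS ⟨s, rfl⟩)⟩
  have hinj : Function.Injective (algebraMap K k) := (algebraMap K k).injective
  have hbind : AlgebraicIndependent k0 b := by
    have h1 : a = (K.val : K → k) ∘ b := rfl
    rw [h1] at hind
    exact hind.of_comp K.val
  have hfin := hT R k0 K hKfg ι J J' E E' hE' φ b hbind hHB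
  have e2 : (algebraMap K k).comp ((algebraMap k0 K).comp φ) = (algebraMap k0 k).comp φ :=
    RingHom.ext fun r => rfl
  refine (hfin.image fun x => fun j => (x j : k)).subset ?_
  rintro x ⟨hx2, hx3, hx4⟩
  refine ⟨fun j => ⟨x j, hx2 j⟩, ⟨fun P hP => ?_, fun y hy => ?_⟩, rfl⟩
  · apply hinj
    rw [map_zero, ← hx3 P hP, MvPolynomial.eval₂_comp_left]
    have e1 : (algebraMap K k ∘ (Sum.elim b (fun j => ⟨x j, hx2 j⟩) : ι ⊕ J → K)) =
        Sum.elim a x := by
      funext i
      cases i with
      | inl s => rfl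
      | inr j => rfl
    rw [e1, e2]
  · refine hx4 (fun j => (y j : k)) (fun j => (y j).2) fun P hP => ?_
    have h0 := congrArg (algebraMap K k) (hy P hP)
    rw [map_zero, MvPolynomial.eval₂_comp_left] at h0
    have e1 : (algebraMap K k ∘ (Sum.elim b (Sum.elim (fun j => ⟨x j, hx2 j⟩) y) :
        ι ⊕ (J ⊕ J') → K)) = Sum.elim a (Sum.elim x (fun j => (y j : k))) := by
      funext i
      rcases i with s | j | j <;> rfl
    rw [e1, e2] at h0
    exact h0

theorem thml (hT : Thm2S) : ThmlS := by
  intro k _ _ _ ι J J' _ _ E E' hE' a hind hHB S hS haS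
  -- the algebraic closure of the rationals
  let k0 := algebraicClosure ℚ k
  have hk1 := algebraicClosure.isAlgClosure ℚ k
  have hk0 : IsAlgClosed k0 := hk1.isAlgClosed
  have hk0c : CharZero k0 := charZero_of_injective_algebraMap (algebraMap ℚ k0).injective
  have hind0 : AlgebraicIndependent k0 a :=  by
    have := IsLocalization.isAlgebraic ℚ (nonZeroDivisors ℤ)
    exact (hind.extendScalars ℚ).algebraicClosure
  have e : (algebraMap k0 k).comp (Int.castRingHom k0) = Int.castRingHom k := RingHom.ext_int _ _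
  have h := hT ℤ k0 k ι J J' E E' hE' (Int.castRingHom k0) a hind0 hHB S hS haS
  rw [e] at h
  exact h

end Pool.Agent.MetX
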