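import Pool.Agent.Lib.MP_c7af3c_ag.METX.Base

/-! The ultrapower point, with exclusion (after METC.H75.Ultra). -/

set_option autoImplicit false

namespace Pool.Agent.MetX

open Filter MvPolynomial Pool.Agent.Gen Pool.Agent.Gen.H81 Pool.Agent.MetC

theorem ultra : UltraS := by
  intro R k0 K _ _ _ _ _ _ ι J J' _ E E' hE' φ D hD N r B t θ z hinj hF hX hbdd
  refine ⟨Om K, inferInstance, inferInstance, amb D hD, fun j => qm K (fun ν => z ν j),
    isAlgClosed_EEf, ?_, ?_, ?_, ?_⟩
  · intro P hP
    have h1 : (Sum.elim (amb D hD).D.a fun j => qm K (fun ν => z ν j)) =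
        fun j => qm K ((Sum.elim (fun s _ => D.a s) (fun j ν => z ν j) : ι ⊕ J → ℕ → K) j) := by
      funext j
      cases j with
      | inl s => rfl
      | inr j => rfl
    rw [h1, MetC.eval_om, qm_zero]
    refine Filter.Eventually.of_forall fun ν => ?_
    have h2 := hF ν P hP
    have h3 : (fun j => (Sum.elim (fun s _ => D.a s) (fun j ν => z ν j) : ι ⊕ J → ℕ → K) j ν) =
        Sum.elim D.a (z ν) := by
      funext j
      cases j with
      | inl s => rfl
      | inr j => rfl
    rw [h3]
    exact h2
  · intro y hy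
    have h0 : ∀ j, ∃ u : ℕ → K, y j = qm K u := fun j => by
      obtain ⟨u, hu⟩ := qm_surj K (y j)
      exact ⟨u, hu.symm⟩
    choose u hu using h0
    have h1 : ∀ P ∈ E', ∀ᶠ ν in UF, eval₂ ((algebraMap k0 K).comp φ)
        (Sum.elim D.a (Sum.elim (z ν) (fun j => u j ν))) P = 0 := by
      intro P hP
      have h2 := hy P hP
      have h3 : (Sum.elim (amb D hD).D.a (Sum.elim (fun j => qm K (fun ν => z ν j)) y)) =
          fun j => qm K ((Sum.elim (fun s _ => D.a s)
            (Sum.elim (fun j ν => z ν j) (fun j ν => u j ν)) : ι ⊕ (J ⊕ J') → ℕ → K) j) := by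
        funext j
        rcases j with s | j | j
        · rfl
        · rfl
        · exact hu j
      rw [h3, MetC.eval_om, qm_zero] at h2
      filter_upwards [h2] with ν hν
      have h4 : (fun j => (Sum.elim (fun s _ => D.a s)
          (Sum.elim (fun j ν => z ν j) (fun j ν => u j ν)) : ι ⊕ (J ⊕ J') → ℕ → K) j ν) =
          Sum.elim D.a (Sum.elim (z ν) (fun j => u j ν)) := by
        funext j
        rcases j with s | j | j <;> rfl
      rw [h4] at hν
      exact hν
    have h5 : ∀ᶠ ν in UF, ∀ P ∈ E', eval₂ ((algebraMap k0 K).comp φ)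
        (Sum.elim D.a (Sum.elim (z ν) (fun j => u j ν))) P = 0 :=
      (Set.Finite.eventually_all hE').2 h1
    obtain ⟨ν, hν⟩ := h5.exists
    exact hX ν _ hν
  · intro j
    exact mem_of_isBdd t θ B _ fun ν => hbdd ν j
  · intro h
    have h1 : ∀ j, ∃ a : K, ∀ᶠ ν in UF, z ν j = a := by
      intro j
      obtain ⟨a, ha⟩ := mem_KKf.1 (h j)
      refine ⟨a, ?_⟩
      have h2 : qm K (fun _ => a) = qm K (fun ν => z ν j) := ha
      rw [qm_eq] at h2
      filter_upwards [h2] with ν hν
      exact hν.symm
    choose a ha using h1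
    have h2 : ∀ᶠ ν in UF, z ν = a := by
      have := Filter.eventually_all.2 ha
      filter_upwards [this] with ν hν
      funext j
      exact hν j
    have h3 : {ν | z ν = a}.Finite := by
      apply Set.Subsingleton.finite
      intro ν hν ν' hν'
      exact hinj (hν.trans hν'.symm)
    exact h3.notMem_hyperfilter h2

end Pool.Agent.MetX
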