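import Pool.Agent.Lib.MP_c7af3c_ag.METC.All

/-!
# MP_c7af3c_ag, project METX: the transfer theorem with exclusion
The height inequality is only assumed for the solutions `z` (over a field `L`) of the system `E`
for which a second system `E'(z, y) = 0` has no solution `y` over `L`. Conclusion: over a finitely
generated extension `K` of an algebraically closed field, all but finitely many solutions `z` of
`E` over `K` have a solution `y` of `E'(z, y) = 0` over `K`.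
-/

set_option autoImplicit false

namespace Pool.Agent.MetX

open MvPolynomial WithZero IsDedekindDomain Pool.Agent.Gen Pool.Agent.MetC

/-- there is no `y` over `L` with `E'(z, y) = 0` -/
def Excl {R ι J J' : Type} [CommRing R] (E' : Set (MvPolynomial (ι ⊕ (J ⊕ J')) R)) {L : Type}
    [CommRing L] (φ : R →+* L) (a : ι → L) (z : J → L) : Prop :=
  ∀ y : J' → L, ¬ Sol E' φ a (Sum.elim z y)

/-- the height inequality for the solutions which are not excluded -/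
def HB {R ι J J' : Type} [CommRing R] (E : Set (MvPolynomial (ι ⊕ J) R))
    (E' : Set (MvPolynomial (ι ⊕ (J ⊕ J')) R)) : Prop :=
  ∃ A : ℕ, ∀ (L : Type) [Field L] [CharZero L] (φ : R →+* L) (D : DD ι L),
    (∀ s r, D.del s (φ r) = 0) → ∀ z : J → L, Sol E φ D.a z → Excl E' φ D.a z →
    ∀ S : PlaceSys L, S.IsProd → (∀ p r, S.v p (φ r) ≤ 1) → ∀ M : S.V → ℕ, Bd S D M → ∀ j,
      h1 S (z j) ≤ A * ∑ᶠ p, (S.w p : ℤ) * M p

/-! ### module statements -/

def HeightS : Prop := ∀ (R k0 K : Type) [CommRing R] [Field k0] [CharZero k0] [Field K]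
  [Algebra k0 K] (N : ℕ) (T : Dat k0 K N) (hdir : ∀ i, FF (dirκ (k0 := k0) T.t i) K (T.t i))
  (ι J J' : Type) [Finite ι] (E : Set (MvPolynomial (ι ⊕ J) R))
  (E' : Set (MvPolynomial (ι ⊕ (J ⊕ J')) R)) (φ : R →+* k0) (D : DD ι K),
  (∀ s, ∃ j, ∀ f, D.del s f = T.del j f) → HB E E' →
  ∀ i, ∃ C : ℤ, ∀ z : J → K, Sol E ((algebraMap k0 K).comp φ) D.a z →
    Excl E' ((algebraMap k0 K).comp φ) D.a z → ∀ j, h1 (ffPlaces (hdir i)) (z j) ≤ C

def UltraS : Prop := ∀ (R k0 K : Type) [CommRing R] [Field k0] [IsAlgClosed k0] [CharZero k0]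
  [Field K] [Algebra k0 K] (ι J J' : Type) [Finite J] (E : Set (MvPolynomial (ι ⊕ J) R))
  (E' : Set (MvPolynomial (ι ⊕ (J ⊕ J')) R)), E'.Finite → ∀
  (φ : R →+* k0) (D : DD ι K),
  (∀ s, ∀ a : k0, D.del s (algebraMap k0 K a) = 0) →
  ∀ (N r B : ℕ) (t : Fin N → K) (θ : Fin r → K) (z : ℕ → J → K),
  Function.Injective z → (∀ ν, Sol E ((algebraMap k0 K).comp φ) D.a (z ν)) →
  (∀ ν, Excl E' ((algebraMap k0 K).comp φ) D.a (z ν)) →
  (∀ ν j, IsBdd (k0 := k0) t θ B (z ν j)) →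
  ∃ (Ω : Type) (_ : Field Ω) (_ : Algebra k0 Ω) (A : Amb k0 Ω ι) (y : J → Ω),
    IsAlgClosed A.EE ∧ Sol E ((algebraMap k0 Ω).comp φ) A.D.a y ∧
      Excl E' ((algebraMap k0 Ω).comp φ) A.D.a y ∧ (∀ j, y j ∈ A.KK ⊔ A.EE) ∧
      ¬ ∀ j, y j ∈ A.KK

def RigidS : Prop := ∀ (R C Ω : Type) [CommRing R] [Field C] [IsAlgClosed C] [CharZero C]
  [Field Ω] [Algebra C Ω] (ι J J' : Type) (E : Set (MvPolynomial (ι ⊕ J) R))
  (E' : Set (MvPolynomial (ι ⊕ (J ⊕ J')) R)), HB E E' →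
  ∀ (φ : R →+* C) (A : Amb C Ω ι),
  ∀ (ε : Ω), ε ∈ A.EE → Transcendental C ε → ∀ (S : Set Ω), S.Finite →
  (∀ s ∈ S, s ∈ A.EE ∧ IsAlgebraic (IntermediateField.adjoin C {ε}) s) →
  ∀ z : J → Ω, Sol E ((algebraMap C Ω).comp φ) A.D.a z →
  Excl E' ((algebraMap C Ω).comp φ) A.D.a z →
  (∀ j, z j ∈ IntermediateField.adjoin A.KK (insert ε S)) → ∀ j, z j ∈ A.KK

def ChainS : Prop := ∀ (R k0 Ω : Type) [CommRing R] [Field k0] [IsAlgClosed k0] [CharZero k0]
  [Field Ω] [Algebra k0 Ω] (ι J J' : Type) [Finite J] (E : Set (MvPolynomial (ι ⊕ J) R))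
  (E' : Set (MvPolynomial (ι ⊕ (J ⊕ J')) R)), HB E E' →
  ∀ (φ : R →+* k0) (A : Amb k0 Ω ι), IsAlgClosed A.EE →
  ∀ z : J → Ω, Sol E ((algebraMap k0 Ω).comp φ) A.D.a z →
  Excl E' ((algebraMap k0 Ω).comp φ) A.D.a z →
  (∀ j, z j ∈ A.KK ⊔ A.EE) → ∀ j, z j ∈ A.KK

/-- finiteness over finitely generated extensions of `k0` -/
def Thm1S : Prop := ∀ (R k0 K : Type) [CommRing R] [Field k0] [IsAlgClosed k0] [CharZero k0]
  [Field K] [Algebra k0 K], (⊤ : IntermediateField k0 K).FG → ∀ (ι J J' : Type) [Finite ι]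
  [Finite J] (E : Set (MvPolynomial (ι ⊕ J) R)) (E' : Set (MvPolynomial (ι ⊕ (J ⊕ J')) R)),
  E'.Finite → ∀ (φ : R →+* k0) (a : ι → K), AlgebraicIndependent k0 a →
  HB E E' → {z : J → K | Sol E ((algebraMap k0 K).comp φ) a z ∧
    Excl E' ((algebraMap k0 K).comp φ) a z}.Finite

/-- finiteness in a fixed algebraically closed field -/
def Thm2S : Prop := ∀ (R k0 k : Type) [CommRing R] [Field k0] [IsAlgClosed k0] [CharZero k0]
  [Field k] [Algebra k0 k] (ι J J' : Type) [Finite ι] [Finite J]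
  (E : Set (MvPolynomial (ι ⊕ J) R)) (E' : Set (MvPolynomial (ι ⊕ (J ⊕ J')) R)), E'.Finite →
  ∀ (φ : R →+* k0) (a : ι → k), AlgebraicIndependent k0 a →
  HB E E' → ∀ (S : Set k), S.Finite → Set.range a ⊆ S →
  {z : J → k | (∀ j, z j ∈ IntermediateField.adjoin k0 S) ∧
    Sol E ((algebraMap k0 k).comp φ) a z ∧
    ∀ y : J' → k, (∀ j, y j ∈ IntermediateField.adjoin k0 S) →
      ¬ Sol E' ((algebraMap k0 k).comp φ) a (Sum.elim z y)}.Finite

/-- the version with constants in `ℤ` -/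
def ThmlS : Prop := ∀ (k : Type) [Field k] [IsAlgClosed k] [CharZero k]
  (ι J J' : Type) [Finite ι] [Finite J] (E : Set (MvPolynomial (ι ⊕ J) ℤ))
  (E' : Set (MvPolynomial (ι ⊕ (J ⊕ J')) ℤ)), E'.Finite → ∀ (a : ι → k),
  AlgebraicIndependent ℤ a → HB E E' → ∀ (S : Set k), S.Finite → Set.range a ⊆ S →
  {z : J → k | (∀ j, z j ∈ IntermediateField.adjoin (algebraicClosure ℚ k) S) ∧
    Sol E (Int.castRingHom k) a z ∧
    ∀ y : J' → k, (∀ j, y j ∈ IntermediateField.adjoin (algebraicClosure ℚ k) S) →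
      ¬ Sol E' (Int.castRingHom k) a (Sum.elim z y)}.Finite

end Pool.Agent.MetX
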